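import Pool.Agent.MP_ee8c61_ag.TC.Spec

/-! Independence depends only on the residues. -/

namespace Pool.Agent.MP_ee8c61_ag.TC

open MvPolynomial M3

theorem rowPert : SPert := by
  intro K _ _ n v y y' h H P hP
  have r : ∀ P : Po n, aeval y' P ∈ v.F 0 := fun P => by
    by_cases e : P = 0
    · rw [e, map_zero]
      exact zero_mem _
    · exact Or.inr (H P e).2.ge
  have k : ∀ P : Po n, aeval y P - aeval y' P ∈ v.F 1 := fun P => by
    induction P using MvPolynomial.induction_on with
    | C c => simp
    | add p q hp hq =>
      rw [map_add, map_add, add_sub_add_comm]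
      exact add_mem hp hq
    | mul_X p i hp =>
      have h1 : y' i ∈ v.F 0 := by simpa using r (X i)
      have h2 : y i ∈ v.F 0 := by simpa using add_mem (v.F_anti zero_le_one (h i)) h1
      have h3 := v.F_mul hp h2
      have h4 := v.F_mul (r p) (h i)
      rw [map_mul, map_mul, aeval_X, aeval_X, show aeval y p * y i - aeval y' p * y' i =
        (aeval y p - aeval y' p) * y i + aeval y' p * (y i - y' i) by ring]
      exact add_mem h3 h4
  exact v.eq_of_sub (H P hP).1 (H P hP).2 (k P)

end Pool.Agent.MP_ee8c61_ag.TC
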