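import Pool.Agent.MP_ee8c61_ag.TC.Spec
import Pool.Agent.MP_ee8c61_ag.M3RESID.CvAt

/-! A valuation of the largest residual transcendence degree is a localisation of a
normalisation. -/

namespace Pool.Agent.MP_ee8c61_ag.TC

open M3 M3RESID M3RESID.CVA Polynomial

noncomputable section

namespace RSs

variable {L : Type} [Field L] [Algebra ℂ L] {o : DV L} {n : ℕ} {π : L} {y : Fin n → L}

/-- The family of the parameter and the residual coordinates. -/
def ww (π : L) (y : Fin n → L) : Option (Fin n) → L := fun i => i.elim π y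

theorem un0 (hy : Indep o y) {a : L} (ha : a ∈ Algebra.adjoin ℂ (Set.range y)) :
    a = 0 ∨ o.v a = 0 := by
  rw [Algebra.adjoin_range_eq_range_aeval] at ha
  obtain ⟨P, rfl⟩ := ha
  by_cases h : P = 0
  · exact Or.inl (by simp [h])
  · exact Or.inr (hy P h).2

theorem zero1 (hy : Indep o y) {a : L} (ha : a ∈ Algebra.adjoin ℂ (Set.range y))
    (h1 : a ∈ o.F 1) : a = 0 := by
  rcases un0 hy ha with h | h
  · exact h
  · rcases h1 with h1 | h1
    · exact h1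
    · omega

theorem le0 (hπ : 0 < o.v π) (hy : Indep o y) :
    ∀ a ∈ Algebra.adjoin ℂ (Set.range (ww π y)), a ∈ o.F 0 := by
  intro a ha
  refine (Algebra.adjoin_le ?_ : _ ≤ oA o) ha
  rintro _ ⟨_ | i, rfl⟩
  · exact Or.inr hπ.le
  · exact (un0 hy (Algebra.subset_adjoin ⟨i, rfl⟩)).imp id fun h => h.ge

theorem dec {a : L} (ha : a ∈ Algebra.adjoin ℂ (Set.range (ww π y))) :
    ∃ a0 ∈ Algebra.adjoin ℂ (Set.range y), ∃ b ∈ Algebra.adjoin ℂ (Set.range (ww π y)),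
      a0 ∈ Algebra.adjoin ℂ (Set.range (ww π y)) ∧ a = a0 + π * b := by
  have hp : π ∈ Algebra.adjoin ℂ (Set.range (ww π y)) := Algebra.subset_adjoin ⟨none, rfl⟩
  induction ha using Algebra.adjoin_induction with
  | mem x hx =>
    obtain ⟨_ | i, rfl⟩ := hx
    · exact ⟨0, zero_mem _, 1, one_mem _, zero_mem _, by simp [ww]⟩
    · exact ⟨y i, Algebra.subset_adjoin ⟨i, rfl⟩, 0, zero_mem _,
        Algebra.subset_adjoin ⟨some i, rfl⟩, by simp [ww]⟩
  | algebraMap c =>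
    exact ⟨_, Subalgebra.algebraMap_mem _ c, 0, zero_mem _, Subalgebra.algebraMap_mem _ c, by simp⟩
  | add x z _ _ h1 h2 =>
    obtain ⟨a, h3, b, h4, h5, rfl⟩ := h1
    obtain ⟨a', h3', b', h4', h5', rfl⟩ := h2
    exact ⟨a + a', add_mem h3 h3', b + b', add_mem h4 h4', add_mem h5 h5', by ring⟩
  | mul x z _ _ h1 h2 =>
    obtain ⟨a, h3, b, h4, h5, rfl⟩ := h1
    obtain ⟨a', h3', b', h4', h5', rfl⟩ := h2
    exact ⟨a * a', mul_mem h3 h3', a * b' + b * a' + π * b * b', add_mem (add_mem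
      (mul_mem h5 h4') (mul_mem h4 h5')) (mul_mem (mul_mem hp h4) h4'), mul_mem h5 h5', by ring⟩

theorem sat (h0 : π ≠ 0) (hπ : 0 < o.v π) (hy : Indep o y) {a : L}
    (ha : a ∈ Algebra.adjoin ℂ (Set.range (ww π y))) (h1 : a ∈ o.F 1) :
    π⁻¹ * a ∈ Algebra.adjoin ℂ (Set.range (ww π y)) := by
  obtain ⟨a0, h2, b, h3, -, rfl⟩ := dec ha
  have h4 := sub_mem h1 (F_mul0' (Or.inr hπ : π ∈ o.F 1) (le0 hπ hy b h3))
  rw [add_sub_cancel_right] at h4
  rwa [zero1 hy h2 h4, zero_add, inv_mul_cancel_left₀ h0]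

theorem red (h0 : π ≠ 0) (hπ : 0 < o.v π) (hy : Indep o y) {z : L} (i0 : ℕ) :
    ∀ (m : ℕ) (P : L[X]), (∀ i, P.coeff i ∈ Algebra.adjoin ℂ (Set.range (ww π y))) →
      P.coeff i0 ≠ 0 → o.v (P.coeff i0) ≤ m → P.eval z = 0 →
      ∃ Q : L[X], (∀ i, Q.coeff i ∈ Algebra.adjoin ℂ (Set.range (ww π y))) ∧
        (∃ i, Q.coeff i ∉ o.F 1) ∧ Q.eval z = 0 := by
  intro m
  induction m with
  | zero =>
    intro P h1 h2 h3 h4
    exact ⟨P, h1, ⟨i0, fun h => by have := h.resolve_left h2; omega⟩, h4⟩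
  | succ m ih =>
    intro P h1 h2 h3 h4
    by_cases h : ∃ i, P.coeff i ∉ o.F 1
    · exact ⟨P, h1, h, h4⟩
    push Not at h
    refine ih (C π⁻¹ * P) (fun i => ?_) ?_ ?_ ?_
    · rw [coeff_C_mul]
      exact sat h0 hπ hy (h1 i) (h i)
    · rw [coeff_C_mul]
      exact mul_ne_zero (inv_ne_zero h0) h2
    · rw [coeff_C_mul, o.mul _ _ (inv_ne_zero h0) h2, o.inv]
      omega
    · rw [eval_mul, h4, mul_zero]

theorem indep (h0 : π ≠ 0) (hπ : 0 < o.v π) (hy : Indep o y) :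
    AlgebraicIndependent ℂ (ww π y) := by
  refine AlgebraicIndependent.option_iff.2 ⟨algebraicIndependent_iff.2 fun P hP => ?_, ?_⟩
  · by_contra h
    exact (hy P h).1 hP
  · intro h
    obtain ⟨q, h1, h2⟩ := h.exists_nonzero_coeff_and_aeval_eq_zero
      (mem_nonZeroDivisors_of_ne_zero h0)
    have h3 := eval_divX (q.map (algebraMap _ L)) π
    rw [eval_map_algebraMap, h2, zero_sub, coeff_map] at h3
    have h4 := F_mul0' (Or.inr hπ : π ∈ o.F 1) (eval_F (P := (q.map (algebraMap _ L)).divX)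
      (fun i => by
        rw [coeff_divX, coeff_map]
        exact (un0 hy (q.coeff (i + 1)).2).imp id fun h => h.ge) (Or.inr hπ.le : π ∈ o.F 0))
    rw [h3, neg_mem_iff] at h4
    exact h1 (Subtype.ext (zero1 hy (q.coeff 0).2 h4))

theorem mem_V {B : Subalgebra ℂ L} {V : ValuationSubring L} (hB : ∀ g ∈ B, g ∈ V) {s : L}
    (h : IsIntegral B s) : s ∈ V := by
  obtain ⟨p, hp, h4⟩ := h
  have : IsIntegral V s := by
    refine ⟨p.map ((algebraMap B L).codRestrict V fun g => hB _ g.2), hp.map _, ?_⟩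
    rw [Polynomial.eval₂_map]
    exact h4
  obtain ⟨z, hz⟩ := IsIntegrallyClosed.algebraMap_eq_of_integral this
  exact hz ▸ z.2

theorem main (ht : Algebra.trdeg ℂ L ≤ Cardinal.mk (Option (Fin n))) (h0 : π ≠ 0)
    (hπ : 0 < o.v π) (hy : Indep o y) {z : L} (hz : z ∈ o.F 0) :
    ∃ s, s ≠ 0 ∧ o.v s = 0 ∧ ∀ V : ValuationSubring L, (∀ c : ℂ, algebraMap ℂ _ c ∈ V) → π ∈ V →
      (∀ i, y i ∈ V) → s ∈ V ∧ s * z ∈ V := by
  have h1 := ((indep h0 hπ hy).isTranscendenceBasis_of_trdeg_le_of_finite ht).isAlgebraic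
  obtain ⟨q, h2, h3⟩ := h1.isAlgebraic z
  obtain ⟨i0, h4⟩ : ∃ i, q.coeff i ≠ 0 := ⟨_, leadingCoeff_ne_zero.2 h2⟩
  obtain ⟨Q, h5, h6, h7⟩ := red h0 hπ hy (z := z) i0 _ (q.map (algebraMap _ L))
    (fun i => by rw [coeff_map]; exact (q.coeff i).2)
    (by rw [coeff_map]; exact fun e => h4 (Subtype.ext e)) (Int.self_le_toNat _)
    (by rw [eval_map_algebraMap, h3])
  obtain ⟨s, s1, s2, s3⟩ := trunc hz _ Q rfl h5 h6 fun V _ => by
    rw [h7, mul_zero]
    exact ⟨zero_mem _, zero_mem _⟩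
  have s4 := mem_of_int (le0 hπ hy) s2
  have s0 : s ≠ 0 := fun e => s1 (Or.inl e)
  refine ⟨s, s0, ?_, fun V c1 c2 c3 => ?_⟩
  · have := s4.resolve_left s0
    have h8 : ¬1 ≤ o.v s := fun h => s1 (Or.inr h)
    omega
  · have hB : ∀ g ∈ Algebra.adjoin ℂ (Set.range (ww π y)), g ∈ V := fun g hg => by
      refine (Algebra.adjoin_le ?_ : _ ≤ (⟨V.toSubring.toSubsemiring, c1⟩ : Subalgebra ℂ L)) hg
      rintro _ ⟨_ | i, rfl⟩
      exacts [c2, c3 i]
    exact ⟨mem_V hB s2, mul_comm z s ▸ mem_V hB s3⟩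

end RSs

theorem rowSs : SSs := fun n v π y h0 hπ hy z hz => by
  refine RSs.main ?_ h0 hπ hy hz
  have : Algebra.IsAlgebraic (Po (n + 1)) (KK (n + 1)) :=
    IsLocalization.isAlgebraic _ (nonZeroDivisors _)
  rw [← trdeg_add_eq ℂ (Po (n + 1)), trdeg_eq_zero (R := Po (n + 1)),
    MvPolynomial.trdeg_of_isDomain]
  simp

end

end Pool.Agent.MP_ee8c61_ag.TC
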