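import Pool.Agent.MP_ee8c61_ag.TC.Spec

/-! The residues of the affine coordinates are algebraically independent. -/

namespace Pool.Agent.MP_ee8c61_ag.TC

open MvPolynomial M3 M3E

noncomputable section

namespace RInd

variable {n : ℕ}

/-- The homogenisation of degree `e`. -/
def hom (e : ℕ) (P : Po n) : Po (n + 1) :=
  ∑ k ∈ Finset.range (e + 1), X 0 ^ (e - k) * rename Fin.succ (homogeneousComponent k P)

theorem hom_isHom (e : ℕ) (P : Po n) : (hom e P).IsHomogeneous e := by
  refine IsHomogeneous.sum _ _ _ fun k hk => ?_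
  have h1 : (X 0 ^ (e - k) : Po (n + 1)).IsHomogeneous (e - k) := by
    simpa using (isHomogeneous_X ℂ (0 : Fin (n + 1))).pow (e - k)
  have h2 : (rename Fin.succ (homogeneousComponent k P) : Po (n + 1)).IsHomogeneous k :=
    (homogeneousComponent_isHomogeneous k P).rename_isHomogeneous
  have h3 := h1.mul h2
  have h4 : e - k + k = e := by
    have := Finset.mem_range.1 hk
    omega
  rwa [h4] at h3

theorem aeval_smul {A : Type} [CommRing A] [Algebra ℂ A] {k : ℕ} {Q : Po n}
    (hQ : Q.IsHomogeneous k) (c : A) (y : Fin n → A) :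
    aeval (fun i => c * y i) Q = c ^ k * aeval y Q := by
  rw [Q.as_sum, map_sum, map_sum, Finset.mul_sum]
  refine Finset.sum_congr rfl fun d hd => ?_
  have h1 : ∑ i, d i = k := by
    have := hQ (mem_support_iff.1 hd)
    rw [← this, Finsupp.weight_apply, Finsupp.sum_fintype _ _ (by simp)]
    simp
  rw [aeval_monomial, aeval_monomial, Finsupp.prod_fintype _ _ (by simp),
    Finsupp.prod_fintype _ _ (by simp)]
  simp_rw [mul_pow]
  rw [Finset.prod_mul_distrib, Finset.prod_pow_eq_pow_sum, h1]
  ring

theorem aeval_hom {A : Type} [CommRing A] [Algebra ℂ A] (P : Po n) (c : A) (y : Fin n → A)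
    (w : Fin (n + 1) → A) (h0 : w 0 = c) (hs : ∀ i, w i.succ = c * y i) :
    aeval w (hom P.totalDegree P) = c ^ P.totalDegree * aeval y P := by
  have hP : aeval y P =
      ∑ k ∈ Finset.range (P.totalDegree + 1), aeval y (homogeneousComponent k P) := by
    rw [← map_sum, sum_homogeneousComponent]
  rw [hP, hom, map_sum, Finset.mul_sum]
  refine Finset.sum_congr rfl fun k hk => ?_
  have h4 : P.totalDegree - k + k = P.totalDegree := by
    have := Finset.mem_range.1 hk
    omega
  have h5 : (w ∘ Fin.succ) = fun i => c * y i := funext hs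
  rw [map_mul, map_pow, aeval_X, aeval_rename, h0, h5,
    aeval_smul (homogeneousComponent_isHomogeneous k P), ← mul_assoc, ← pow_add, h4]

theorem hom_ne {P : Po n} (hP : P ≠ 0) : hom P.totalDegree P ≠ 0 := by
  intro h
  have h1 := aeval_hom P (1 : Po n) X (Fin.cons 1 X) rfl (fun i => by simp)
  rw [h, map_zero, one_pow, one_mul, aeval_X_left_apply] at h1
  exact hP h1.symm

end RInd

open RInd in
theorem rowInd : SInd := by
  intro n v hv P hP
  have hinj : Function.Injective (ip (n + 1)) := IsFractionRing.injective (Po (n + 1)) _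
  have hx : ip (n + 1) (X 0) ≠ 0 := fun h =>
    X_ne_zero (R := ℂ) (0 : Fin (n + 1)) (hinj (by rw [h, map_zero]))
  have h1 := aeval_hom P (ip (n + 1) (X 0)) (fun i : Fin n => ip _ (X i.succ) / ip _ (X 0))
    (fun j => ip (n + 1) (X j)) rfl (fun i => by field_simp)
  have h2 : aeval (fun j => ip (n + 1) (X j)) (hom P.totalDegree P) =
      ip (n + 1) (hom P.totalDegree P) := by
    have h : aeval (fun j => ip (n + 1) (X j)) = ip (n + 1) :=
      algHom_ext fun j => aeval_X _ j
    rw [h]
  have h3 : ip (n + 1) (hom P.totalDegree P) ≠ 0 := fun h =>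
    hom_ne hP (hinj (by rw [h, map_zero]))
  rw [h2] at h1
  have h4 : aeval (fun i : Fin n => ip (n + 1) (X i.succ) / ip (n + 1) (X 0)) P ≠ 0 := by
    intro h
    rw [h, mul_zero] at h1
    exact h3 h1
  refine ⟨h4, ?_⟩
  have h5 := hv _ _ (hom_ne hP) (hom_isHom _ P)
  have h6 := hv P.totalDegree (X 0 ^ P.totalDegree) (pow_ne_zero _ (X_ne_zero _))
    (by simpa using (isHomogeneous_X ℂ (0 : Fin (n + 1))).pow P.totalDegree)
  rw [map_pow] at h6
  rw [h1, v.mul _ _ (pow_ne_zero _ hx) h4, h6] at h5
  omega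

end

end Pool.Agent.MP_ee8c61_ag.TC
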