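import Pool.Agent.MP_ee8c61_ag.TC.Spec
import Pool.Agent.MP_ee8c61_ag.M3E.RNs

/-! The hypothesis on a coordinate hyperplane of a chart. -/

namespace Pool.Agent.MP_ee8c61_ag.TC

open MvPolynomial M3 M3E

namespace RQuo

theorem bij {n : ℕ} (l : Fin (n + 1)) : Function.Bijective
    ((Ideal.Quotient.mk (Ideal.span {(X l : Po (n + 1))})).comp
      (rename (R := ℂ) l.succAbove).toRingHom) := by
  have e : (RNs.kill l).comp (rename l.succAbove) = rename (finSuccAboveEquiv l) :=
    algHom_ext fun i => by simp [RNs.kill, finSuccAboveEquiv_apply, l.succAbove_ne i]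
  have e' : ∀ p : Po n, RNs.kill l (rename l.succAbove p) = rename (finSuccAboveEquiv l) p :=
    fun p => AlgHom.congr_fun e p
  refine ⟨(injective_iff_map_eq_zero _).2 fun p hp => ?_, fun x => ?_⟩
  · have h1 : rename l.succAbove p ∈ Ideal.span {(X l : Po (n + 1))} :=
      Ideal.Quotient.eq_zero_iff_mem.1 hp
    rw [← RNs.ker_kill] at h1
    have h2 : RNs.kill l (rename l.succAbove p) = 0 := h1
    rw [e'] at h2
    exact rename_injective _ (finSuccAboveEquiv l).injective (h2.trans (map_zero _).symm)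
  · obtain ⟨q, rfl⟩ := Ideal.Quotient.mk_surjective x
    obtain ⟨p, hp⟩ := rename_surjective _ (finSuccAboveEquiv l).surjective (RNs.kill l q)
    refine ⟨p, Ideal.Quotient.eq.2 ?_⟩
    rw [← RNs.ker_kill]
    show RNs.kill l (rename l.succAbove p - q) = 0
    rw [map_sub, e', hp, sub_self]

theorem etale {A : Type} [CommRing A] [Algebra ℂ A] {n : ℕ} (z : Fin (n + 1) → A)
    (het : (aeval (R := ℂ) z).toRingHom.Etale) (l : Fin (n + 1)) (Q : Ideal A)
    (hQ : Q = Ideal.span {z l}) :
    (aeval (R := ℂ) fun i => Ideal.Quotient.mk Q (z (l.succAbove i))).toRingHom.Etale := by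
  let : Algebra (Po (n + 1)) A := (aeval (R := ℂ) z).toRingHom.toAlgebra
  have : Algebra.Etale (Po (n + 1)) A := het
  have hz : algebraMap (Po (n + 1)) A (X l) = z l := aeval_X z l
  have e : Q = (Ideal.span {(X l : Po (n + 1))}).map (algebraMap (Po (n + 1)) A) := by
    rw [Ideal.map_span, Set.image_singleton, hz, hQ]
  subst e
  have h1 : Algebra.Etale (Po (n + 1) ⧸ Ideal.span {(X l : Po (n + 1))})
      (A ⧸ (Ideal.span {(X l : Po (n + 1))}).map (algebraMap (Po (n + 1)) A)) :=
    Algebra.Etale.of_equiv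
      (Algebra.TensorProduct.quotIdealMapEquivQuotTensor A (Ideal.span {(X l : Po (n + 1))})).symm
  have h2 := RingHom.Etale.stableUnderComposition _ _ (RingHom.Etale.of_bijective (bij l))
    (RingHom.etale_algebraMap.2 h1)
  refine (congrArg RingHom.Etale ?_).mp h2
  refine ringHom_ext (fun c => ?_) fun i => ?_
  · show Ideal.Quotient.mk _ (aeval z (rename l.succAbove (C c))) = aeval _ (C c)
    rw [rename_C, aeval_C, aeval_C]
    rfl
  · show Ideal.Quotient.mk _ (aeval z (rename l.succAbove (X i))) = aeval _ (X i)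
    rw [rename_X, aeval_X, aeval_X]

theorem jac_map {A B : Type} [CommRing A] [Algebra ℂ A] [CommRing B] [Algebra ℂ B] {n : ℕ}
    (π : A →ₐ[ℂ] B) (D : Fin n → Derivation ℂ A A) (D' : Fin n → Derivation ℂ B B)
    (h : ∀ i x, D' i (π x) = π (D i x)) (ψ : Fin (n + 1) → A) :
    jac D' (fun l => π (ψ l)) = π (jac D ψ) := by
  rw [jac, jac, AlgHom.map_det]
  refine congrArg Matrix.det (Matrix.ext fun i l => ?_)
  refine Fin.cases rfl (fun i => ?_) i
  exact h i (ψ l)

end RQuo

open RQuo in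
theorem rowQuo : SQuo := by
  intro n g h m H A _ _ z D l0 ψ u a het hD hP hψ hg
  let π : A →ₐ[ℂ] A ⧸ Ideal.span {z l0} := Ideal.Quotient.mkₐ ℂ _
  have hπ : Function.Surjective π := Ideal.Quotient.mk_surjective
  have hk : ∀ x, π x = 0 ↔ z l0 ∣ x := fun x =>
    Ideal.Quotient.eq_zero_iff_mem.trans Ideal.mem_span_singleton
  have hd : ∀ i x, π x = 0 → π (D (l0.succAbove i) x) = 0 := fun i x hx => by
    obtain ⟨y, rfl⟩ := (hk x).1 hx
    rw [hk, Derivation.leibniz, hD, if_neg (l0.succAbove_ne i), smul_zero, add_zero, smul_eq_mul]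
    exact dvd_mul_right _ _
  have hD' : ∀ i x, Derivation.liftOfSurjective hπ (hd i) (π x) = π (D (l0.succAbove i) x) :=
    fun i x => Derivation.liftOfSurjective_apply hπ (hd i) x
  have ev : ∀ p : Po (n + 1), aeval (fun l => π (ψ l)) p = π (aeval ψ p) := fun p =>
    (comp_aeval_apply ψ π p).symm
  have e1 : π (aeval ψ g) = π (u * ∏ i, z (l0.succAbove i) ^ a i) := by
    rw [← sub_eq_zero, ← map_sub]
    exact (hk _).2 hg
  obtain ⟨y, hy⟩ := H (A ⧸ Ideal.span {z l0}) (fun i => π (z (l0.succAbove i)))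
    (fun i => Derivation.liftOfSurjective hπ (hd i)) (fun l => π (ψ l))
    (Units.map π.toMonoidHom u) a (etale z het l0 _ rfl)
    (fun i j => by
      rw [hD', hD]
      by_cases e : i = j
      · rw [if_pos e, if_pos (congrArg _ e), map_one]
      · rw [if_neg e, if_neg fun x => e (Fin.succAbove_right_injective x), map_zero])
    (hψ.imp fun l hl => hl.map π)
    (by rw [ev, e1, map_mul, map_prod]; simp only [map_pow]; rfl)
  obtain ⟨y, rfl⟩ := hπ y
  refine ⟨y, (hk _).1 ?_⟩
  have e2 := jac_map π (fun i => D (l0.succAbove i)) _ hD' ψ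
  rw [ev, ev, e2, e1] at hy
  rw [map_sub, sub_eq_zero, map_mul, map_mul _ (_ ^ m), map_pow, map_pow, map_mul, map_prod]
  exact hy

end Pool.Agent.MP_ee8c61_ag.TC
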