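import Pool.Agent.MP_ee8c61_ag.TC.Spec

/-! The Jacobian determinant of a cone over a map. -/

namespace Pool.Agent.MP_ee8c61_ag.TC

open Matrix

namespace RDet

variable {n : ℕ} {A : Type} [CommRing A]

/-- moving the row `l0` to the front -/
lemma det_front (M : Matrix (Fin (n + 1)) (Fin (n + 1)) A) (l0 : Fin (n + 1)) :
    M.det = ((Equiv.Perm.sign (Fin.cycleRange l0).symm : ℤˣ) : ℤ) *
      (Matrix.of (Fin.cons (M l0) fun i => M (l0.succAbove i) :
        Fin (n + 1) → Fin (n + 1) → A)).det := by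
  have h : (Matrix.of (Fin.cons (M l0) fun i => M (l0.succAbove i) :
      Fin (n + 1) → Fin (n + 1) → A)) = M.submatrix (Fin.cycleRange l0).symm id := by
    ext i j
    refine Fin.cases ?_ (fun i => ?_) i
    · simp
    · simp
  have h2 : ∀ s : ℤˣ, ((s : ℤ) : A) * ((s : ℤ) : A) = 1 := fun s => by
    rcases Int.units_eq_one_or s with rfl | rfl <;> simp
  rw [h, Matrix.det_permute, ← mul_assoc, h2, one_mul]

/-- scaling all rows but the first -/
lemma det_scale (η : A) (a : Fin (n + 1) → A) (r : Fin n → Fin (n + 1) → A) :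
    (Matrix.of (Fin.cons a fun i l => η * r i l : Fin (n + 1) → Fin (n + 1) → A)).det =
      η ^ n * (Matrix.of (Fin.cons a r : Fin (n + 1) → Fin (n + 1) → A)).det := by
  have h : (Matrix.of (Fin.cons a fun i l => η * r i l : Fin (n + 1) → Fin (n + 1) → A)) =
      Matrix.of fun i l => (Fin.cons 1 fun _ => η : Fin (n + 1) → A) i *
        (Matrix.of (Fin.cons a r : Fin (n + 1) → Fin (n + 1) → A)) i l := by
    ext i j
    refine Fin.cases ?_ (fun i => ?_) i
    · simp
    · simp
  rw [h, Matrix.det_mul_column, Fin.prod_univ_succ]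
  simp

/-- linearity in the first row -/
lemma det_first (η : A) (a b : Fin (n + 1) → A) (r : Fin n → Fin (n + 1) → A) :
    (Matrix.of (Fin.cons (fun l => a l + η * b l) r : Fin (n + 1) → Fin (n + 1) → A)).det =
      (Matrix.of (Fin.cons a r : Fin (n + 1) → Fin (n + 1) → A)).det +
        η * (Matrix.of (Fin.cons b r : Fin (n + 1) → Fin (n + 1) → A)).det := by
  have h : ∀ c : Fin (n + 1) → A, (Matrix.of (Fin.cons c r : Fin (n + 1) → Fin (n + 1) → A)) =
      (Matrix.of (Fin.cons a r : Fin (n + 1) → Fin (n + 1) → A)).updateRow 0 c := fun c => by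
    ext i j
    refine Fin.cases ?_ (fun i => ?_) i
    · simp
    · simp
  have e : (fun l => a l + η * b l) = a + η • b := by
    ext l
    simp
  rw [h (fun l => a l + η * b l), e, Matrix.det_updateRow_add, Matrix.det_updateRow_smul, ← h a,
    ← h b]

/-- row operations -/
lemma det_ops (ν : A) (ψ : Fin (n + 1) → A) (c : Fin n → A) (r : Fin n → Fin (n + 1) → A) :
    (Matrix.of (Fin.cons (fun l => ν * ψ l) fun i l => ν * r i l + c i * ψ l :
      Fin (n + 1) → Fin (n + 1) → A)).det =
      ν ^ (n + 1) * (Matrix.of (Fin.cons ψ r : Fin (n + 1) → Fin (n + 1) → A)).det := by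
  have h1 : (Matrix.of (Fin.cons (fun l => ν * ψ l) fun i l => ν * r i l + c i * ψ l :
      Fin (n + 1) → Fin (n + 1) → A)).det = ν * (Matrix.of (Fin.cons ψ
        fun i l => ν * r i l + c i * ψ l : Fin (n + 1) → Fin (n + 1) → A)).det := by
    have := det_first ν (fun _ => 0) ψ fun i l => ν * r i l + c i * ψ l
    have h0 : (Matrix.of (Fin.cons (fun _ => (0 : A)) fun i l => ν * r i l + c i * ψ l :
      Fin (n + 1) → Fin (n + 1) → A)).det = 0 :=
      Matrix.det_eq_zero_of_row_eq_zero 0 fun j => by simp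
    simpa only [zero_add, h0] using this
  have h2 : (Matrix.of (Fin.cons ψ fun i l => ν * r i l + c i * ψ l :
      Fin (n + 1) → Fin (n + 1) → A)).det =
      (Matrix.of (Fin.cons ψ fun i l => ν * r i l : Fin (n + 1) → Fin (n + 1) → A)).det := by
    refine Matrix.det_eq_of_forall_row_eq_smul_add_const
      (Fin.cons 0 c : Fin (n + 1) → A) 0 (by simp) fun i j => ?_
    refine Fin.cases ?_ (fun i => ?_) i
    · simp
    · simp
  rw [h1, h2, det_scale]
  ring

end RDet

open RDet in
theorem rowDet : SDet := by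
  intro n A _ _ D l0 η ν ψ hη
  refine ⟨Equiv.Perm.sign (Fin.cycleRange l0).symm, ((Equiv.Perm.sign (Fin.cycleRange l0).symm :
    ℤˣ) : ℤ) * (Matrix.of (Fin.cons (fun l => D l0 (ν * ψ l)) fun i l =>
      ν * D (l0.succAbove i) (ψ l) + D (l0.succAbove i) ν * ψ l :
      Fin (n + 1) → Fin (n + 1) → A)).det, ?_⟩
  have ht : (Matrix.of fun l i => D i (η * ν * ψ l)) = (Matrix.of fun i l => D i (η * ν * ψ l))ᵀ :=
    rfl
  have h : (Matrix.of (Fin.cons ((Matrix.of fun i l => D i (η * ν * ψ l)) l0) fun i =>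
      (Matrix.of fun i l => D i (η * ν * ψ l)) (l0.succAbove i) :
        Fin (n + 1) → Fin (n + 1) → A)) =
      Matrix.of (Fin.cons (fun l => ν * ψ l + η * D l0 (ν * ψ l)) fun i l =>
        η * (ν * D (l0.succAbove i) (ψ l) + D (l0.succAbove i) ν * ψ l) :
        Fin (n + 1) → Fin (n + 1) → A) := by
    ext i j
    refine Fin.cases ?_ (fun i => ?_) i
    · simp only [Matrix.of_apply, Fin.cons_zero]
      rw [mul_assoc, Derivation.leibniz, hη, if_pos rfl]
      simp only [smul_eq_mul]
      ring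
    · simp only [Matrix.of_apply, Fin.cons_succ]
      rw [mul_assoc, Derivation.leibniz, hη, if_neg (Fin.succAbove_ne l0 i), Derivation.leibniz]
      simp only [smul_eq_mul]
      ring
  rw [ht, Matrix.det_transpose, det_front _ l0, h, det_scale, det_first, det_ops, jac]
  ring

end Pool.Agent.MP_ee8c61_ag.TC
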