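import Pool.Agent.MP_ee8c61_ag.TC.Spec

/-! The discrepancy of the order of vanishing is at most `n`. -/

namespace Pool.Agent.MP_ee8c61_ag.TC

open MvPolynomial M3 M3E

namespace RKle

theorem prod_mem {K ι : Type} [Field K] (d : DV K) (s : Finset ι) (f : ι → K) (o : ι → ℤ)
    (h : ∀ i, f i ∈ d.F (o i)) : ∏ i ∈ s, f i ∈ d.F (∑ i ∈ s, o i) := by
  classical
  induction s using Finset.induction_on with
  | empty => exact Or.inr (by simp [d.one])
  | insert i s hi ih =>
    rw [Finset.prod_insert hi, Finset.sum_insert hi]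
    exact d.F_mul (h i) ih

end RKle

theorem rowKle : OfKle := by
  intro E hK n f M o hM ho
  have B := E.bas _ f M hM
  have K := hK n _ ho
  obtain ⟨b, hb⟩ := hM.ne o
  obtain ⟨h1, h2, -⟩ := hM.dv b o hb
  obtain ⟨-, -, ⟨l0, hl⟩, -⟩ := B.in_v b _ o h1 ((B.thru_v o o).2 rfl)
  obtain ⟨U, hU, hd⟩ := hM.det b
  have hPA : (Matrix.of fun j l => M3B1.pd (n + 1) l (M.S.z b j)) *
      (Matrix.of fun l i => M.S.D b i (M.S.r l)) = 1 := by
    ext j i
    have h := M3B1.chain (M.S.D b i) (M.S.z b j)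
    rw [M.S.D_z] at h
    rw [Matrix.mul_apply, Matrix.one_apply, if_congr eq_comm rfl rfl, h, hM.r]
    exact Finset.sum_congr rfl fun l _ => mul_comm _ _
  have hz : ∀ j, M.S.z b j ∈ (M.v o).F (if j = l0 then 1 else 0) := fun j => by
    split_ifs with e
    · rw [e, ← M.S.η_some b o l0 hl]
      exact Or.inr h2.ge
    · exact h1 _ (M.S.z_mem b j)
  have hP : (Matrix.of fun j l => M3B1.pd (n + 1) l (M.S.z b j)).det ∈ (M.v o).F (-n) := by
    rw [Matrix.det_apply]
    refine sum_mem fun σ _ => ?_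
    have h := RKle.prod_mem (M.v o) Finset.univ (fun l => M3B1.pd (n + 1) l (M.S.z b (σ l)))
      (fun l => (if σ l = l0 then 1 else 0) - 1) fun l => K.der l _ _ (hz _)
    have e : ∑ l, (if σ l = l0 then 1 else 0 : ℤ) = 1 := by
      rw [Equiv.sum_comp σ fun l => (if l = l0 then 1 else 0 : ℤ)]
      simp
    have e' : (1 : ℤ) - ∑ _l : Fin (n + 1), (1 : ℤ) = -n := by simp
    rw [Finset.sum_sub_distrib, e, e'] at h
    rw [Units.smul_def]
    exact zsmul_mem h _
  have hdet := congrArg Matrix.det hPA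
  rw [Matrix.det_mul, Matrix.det_one, hd] at hdet
  have hP0 := left_ne_zero_of_mul_eq_one hdet
  have hv := congrArg (M.v o).v hdet
  have hu : (M.v o).v U = 0 :=
    ((M.v o).un_O.1 ⟨U.ne_zero, h1 _ hU.1, by simpa using h1 _ hU.2⟩).2
  rw [(M.v o).mul _ _ hP0 (right_ne_zero_of_mul_eq_one hdet), (M.v o).one,
    (M.v o).mul _ _ U.ne_zero (M.mon_ne b _), hu, B.v_mon b o _ h1] at hv
  have h3 := hP.resolve_left hP0
  have h4 : M.kk o = M.k o := rfl
  omega

end Pool.Agent.MP_ee8c61_ag.TC
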