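import Pool.Agent.MP_ee8c61_ag.TC.Spec
import Pool.Agent.MP_ee8c61_ag.M3B1.Dvr

/-! A model that dominates the blow-up of the origin. -/

namespace Pool.Agent.MP_ee8c61_ag.TC

open MvPolynomial M3 M3E

noncomputable section

namespace RMod

variable {N : ℕ}

theorem sum_X {p : Po N} (h : homogeneousComponent 0 p = 0) :
    ∃ q : Fin N → Po N, ∑ l, q l * X l = p := by
  refine Ideal.mem_span_range_iff_exists_fun.1 ?_
  rw [← Set.image_univ]
  refine mem_ideal_span_X_image.2 fun m hm => ?_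
  by_contra hn
  have h0 : m = 0 := Finsupp.ext fun i => not_not.1 fun e => hn ⟨i, trivial, e⟩
  rw [homogeneousComponent_zero, C_eq_zero] at h
  exact mem_support_iff.1 hm (h0 ▸ h)

theorem div_mem {v : DV (KK N)} (K : OrdK v) {e : ℕ} {p : Po N} {ν : KK N}
    {B : Subalgebra ℂ (KK N)} (h0 : ν ≠ 0) (h1 : ν ∈ B) (h2 : ∀ i, ip N (X i) / ν ∈ B)
    (hp : ip N p ∈ v.F e) : ip N p / ν ^ e ∈ B := by
  obtain ⟨r, hr, h⟩ := K.div e p ν B h0 h1 h2 ((K.mem e p).1 hp)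
  rw [h, aeval_def]
  exact add_mem (eval₂_mem (fun _ _ => B.algebraMap_mem _) h2) (mul_mem h1 hr)

end RMod

open RMod

theorem rowMod : OfMod := by
  classical
  intro E h0 hO hK n f hf hf0
  obtain ⟨W, hW, c, T, hT, h1, h2⟩ := h0 _ f (insert f (Finset.univ.image X)) hf
    ⟨1, by rw [pow_one]; exact Finset.mem_insert_self _ _⟩
  have B := E.bas _ f W hW
  have hN := E.nb _ f W hW
  have sec : ∀ l, ip _ (X l) ∈ W.H c := fun l => h1 _ (Finset.mem_coe.1 (hT ▸ ⟨_,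
    Finset.mem_coe.2 (Finset.mem_insert_of_mem (Finset.mem_image_of_mem _ (Finset.mem_univ l))),
    rfl⟩))
  have gen : ∀ V, Ov V → ∃ l, W.Gen V c (ip _ (X l)) := fun V hV => by
    obtain ⟨g, hg, hgV⟩ := h2 V hV
    obtain ⟨p, hp, rfl⟩ : g ∈ ip _ '' _ := hT ▸ Finset.mem_coe.2 hg
    rcases Finset.mem_insert.1 (Finset.mem_coe.1 hp) with rfl | hp
    · by_contra hn
      obtain ⟨b, hb⟩ := hW.cov V hV
      obtain ⟨q, hq⟩ := sum_X hf0
      have hu := hgV b hb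
      rw [← hq, map_sum, Finset.sum_mul] at hu
      refine not_un_sum _ (fun l _ => ?_) (fun l _ => ?_) hu
      · rw [map_mul, mul_assoc]
        exact mul_mem (hV _) (sec l V hV b hb)
      · rw [map_mul, mul_assoc]
        exact not_un_mul (hV _) (sec l V hV b hb) fun e => hn ⟨l, (B.gen_iff b V _ _ hb).2 e⟩
    · obtain ⟨l, -, rfl⟩ := Finset.mem_image.1 hp
      exact ⟨l, hgV⟩
  have nn : 0 ≤ -c := fun j => by
    obtain ⟨l, hl⟩ := gen _ (B.ov_v j)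
    obtain ⟨a1, a2⟩ := (B.gen_v j _ _).1 hl
    exact ((B.ov_v j (X l)).resolve_left a1).trans_eq a2
  obtain ⟨v, hv⟩ := hO n
  have K := hK n v hv
  have hx : ∀ l, v.v (ip _ (X l)) = 1 := fun l => hv 1 _ (X_ne_zero l) (isHomogeneous_X _ l)
  have hV : Ov v.O := fun p => (K.mem 0 p).2 fun _ h => absurd h (Nat.not_lt_zero _)
  obtain ⟨b, hb⟩ := hW.cov _ hV
  obtain ⟨l, hl⟩ := gen _ hV
  have hu := hl b hb
  have hν : v.v (W.mon b (-c)) = 1 := by
    have := (v.un_O.1 hu).2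
    rw [v.mul _ _ (M3B1.ip_ne (X_ne_zero l)) (W.mon_ne _ _), hx] at this
    rw [B.mon_neg, v.inv]
    omega
  obtain ⟨j, hj⟩ : ∃ j, W.Thru v.O j := by
    by_contra hn
    have := (v.un_O.1 (B.un_of b _ (-c) hb fun j h => absurd ⟨j, h⟩ hn)).2
    omega
  obtain ⟨a1, a2, -, a3⟩ := B.in_v b _ j hb hj
  have hd : ∀ (e : ℕ) p, ip _ p ∈ v.F e → ip _ p / W.mon b (-c) ^ e ∈ W.S.A b := fun e p hp =>
    div_mem K (W.mon_ne _ _) (B.mon_mem b _ nn) (fun i => by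
      rw [B.mon_neg, div_inv_eq_mul]
      exact (hN.H _ _).1 (sec i) b) hp
  have hle : v.O ≤ (W.v j).O := fun z hz => by
    obtain ⟨p, q, hq, e1⟩ := M3B1.frac z
    have q0 := M3B1.ip_ne hq
    obtain ⟨e, he⟩ := Int.eq_ofNat_of_zero_le ((hV q).resolve_left q0)
    have m0 := pow_ne_zero e (W.mon_ne b (-c))
    have hq1 : ip _ q ∈ v.F e := Or.inr he.ge
    have hp1 : ip _ p ∈ v.F e := by
      have := v.F_mul hq1 hz
      rwa [e1, add_zero] at this
    have u1 : Un v.O (ip _ q / W.mon b (-c) ^ e) :=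
      v.un_O.2 ⟨div_ne_zero q0 m0, by rw [v.div q0 m0, v.pow, hν, he, mul_one, sub_self]⟩
    have u2 : Un (W.v j).O (ip _ q / W.mon b (-c) ^ e) :=
      (W.v j).un_O.2 ⟨u1.1, a3 _ (hd e q hq1) u1⟩
    refine u2.mem_iff.1 ?_
    rw [← mul_div_assoc, mul_comm, e1]
    exact a1 _ (hd e p hp1)
  have hη := (hW.dv b j a2).2.1
  have hO' : (W.v j).O = v.O := M3B1.dv_max v _ hle fun e => by
    have h3 : (W.η b j)⁻¹ ∈ (W.v j).O := e ▸ ValuationSubring.mem_top _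
    have := Or.resolve_left h3 (inv_ne_zero (W.η_ne b j))
    rw [(W.v j).inv] at this
    omega
  have hvv : W.v j = v := M3B1.dv_uniq hO' hη (hx l)
  refine ⟨W, j, -c, hW, hvv ▸ hv, by rwa [neg_neg], by rwa [neg_neg], nn, ?_⟩
  have := ((B.gen_v j c _).1 (hO' ▸ hl)).2
  rw [hvv, hx] at this
  exact this.symm

end

end Pool.Agent.MP_ee8c61_ag.TC
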