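import Pool.Agent.MP_ee8c61_ag.TC.Spec

/-! The order of vanishing at the origin as a discrete valuation. -/

namespace Pool.Agent.MP_ee8c61_ag.TC

open MvPolynomial M3 M3E

noncomputable section

namespace ROrd

variable {N : ℕ}

/-- Scale all variables by a new one. -/
def phi (N : ℕ) : Po N →ₐ[ℂ] Polynomial (Po N) :=
  aeval fun i => Polynomial.X * Polynomial.C (X i)

theorem phi_eval (p : Po N) : (phi N p).eval 1 = p := by
  induction p using MvPolynomial.induction_on with
  | C c => simp [phi]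
  | add p q hp hq => rw [map_add, Polynomial.eval_add, hp, hq]
  | mul_X p i hp =>
    rw [map_mul, Polynomial.eval_mul, hp]
    simp [phi]

theorem phi_ne {p : Po N} (h : p ≠ 0) : phi N p ≠ 0 := fun e => h (by
  rw [← phi_eval p, e, Polynomial.eval_zero])

theorem phi_mono (s : Fin N →₀ ℕ) (c : ℂ) :
    phi N (monomial s c) = Polynomial.X ^ s.degree * Polynomial.C (monomial s c) := by
  rw [phi, aeval_monomial, monomial_eq, Finsupp.degree_apply, Finsupp.prod, Finsupp.prod,
    map_mul, map_prod, ← Finset.prod_pow_eq_pow_sum, mul_left_comm, ← Finset.prod_mul_distrib]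
  congr 1
  exact Finset.prod_congr rfl fun i _ => by rw [mul_pow, map_pow]

theorem phi_hom {p : Po N} {e : ℕ} (h : p.IsHomogeneous e) :
    phi N p = Polynomial.X ^ e * Polynomial.C p := by
  conv_lhs => rw [p.as_sum]
  conv_rhs => rw [p.as_sum]
  rw [map_sum, map_sum, Finset.mul_sum]
  refine Finset.sum_congr rfl fun s hs => ?_
  have : s.degree = e := by
    rw [Finsupp.degree_eq_weight_one]
    exact h (mem_support_iff.1 hs)
  rw [phi_mono, this]

/-- The order of a polynomial. -/
def v0 (p : Po N) : ℤ := (phi N p).natTrailingDegree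

theorem v0_mul {p q : Po N} (hp : p ≠ 0) (hq : q ≠ 0) : v0 (p * q) = v0 p + v0 q := by
  rw [v0, v0, v0, map_mul, Polynomial.natTrailingDegree_mul (phi_ne hp) (phi_ne hq)]
  push_cast
  rfl

theorem v0_add {p q : Po N} (h : p + q ≠ 0) : min (v0 p) (v0 q) ≤ v0 (p + q) := by
  have h1 : min (phi N p).natTrailingDegree (phi N q).natTrailingDegree ≤
      (phi N (p + q)).natTrailingDegree := by
    refine Polynomial.le_natTrailingDegree (phi_ne h) fun m hm => ?_
    rw [lt_min_iff] at hm
    rw [map_add, Polynomial.coeff_add, Polynomial.coeff_eq_zero_of_lt_natTrailingDegree hm.1,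
      Polynomial.coeff_eq_zero_of_lt_natTrailingDegree hm.2, add_zero]
  rw [v0, v0, v0]
  exact_mod_cast h1

theorem v0_hom {p : Po N} {e : ℕ} (h0 : p ≠ 0) (h : p.IsHomogeneous e) : v0 p = e := by
  rw [v0, phi_hom h, mul_comm, Polynomial.C_mul_X_pow_eq_monomial,
    Polynomial.natTrailingDegree_monomial h0]

open Classical in
/-- The order of a rational function. -/
def vv (x : KK N) : ℤ :=
  if x = 0 then 0 else v0 (M3B1.frac x).choose - v0 (M3B1.frac x).choose_spec.choose

theorem num_ne {x : KK N} {p q : Po N} (hx : x ≠ 0) (hq : q ≠ 0) (e : ip N q * x = ip N p) :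
    p ≠ 0 := by
  rintro rfl
  rw [map_zero] at e
  exact mul_ne_zero (M3B1.ip_ne hq) hx e

theorem vv_eq {x : KK N} {p q : Po N} (hx : x ≠ 0) (hq : q ≠ 0) (e : ip N q * x = ip N p) :
    vv x = v0 p - v0 q := by
  obtain ⟨hq', e'⟩ := (M3B1.frac x).choose_spec.choose_spec
  rw [vv, if_neg hx]
  generalize (M3B1.frac x).choose_spec.choose = q' at hq' e'
  generalize (M3B1.frac x).choose = p' at e'
  have h : p' * q = p * q' := M3B1.ip_inj (by rw [map_mul, map_mul, ← e, ← e']; ring)
  have h1 := v0_mul (num_ne hx hq' e') hq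
  rw [h, v0_mul (num_ne hx hq e) hq'] at h1
  omega

/-- The valuation. -/
def dv (N : ℕ) : DV (KK N) where
  v := vv
  zero := if_pos rfl
  mul g h hg hh := by
    obtain ⟨p, q, hq, e⟩ := M3B1.frac g
    obtain ⟨p', q', hq', e'⟩ := M3B1.frac h
    have e2 : ip N (q * q') * (g * h) = ip N (p * p') := by
      rw [map_mul, map_mul, ← e, ← e']; ring
    rw [vv_eq (mul_ne_zero hg hh) (mul_ne_zero hq hq') e2, vv_eq hg hq e, vv_eq hh hq' e',
      v0_mul (num_ne hg hq e) (num_ne hh hq' e'), v0_mul hq hq']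
    ring
  add g h hg hh hs := by
    obtain ⟨p, q, hq, e⟩ := M3B1.frac g
    obtain ⟨p', q', hq', e'⟩ := M3B1.frac h
    have e2 : ip N (q * q') * (g + h) = ip N (p * q' + p' * q) := by
      rw [map_mul, map_add, map_mul, map_mul, ← e, ← e']; ring
    have h1 := v0_add (num_ne hs (mul_ne_zero hq hq') e2)
    rw [v0_mul (num_ne hg hq e) hq', v0_mul (num_ne hh hq' e') hq] at h1
    rw [vv_eq hs (mul_ne_zero hq hq') e2, vv_eq hg hq e, vv_eq hh hq' e', v0_mul hq hq']
    omega

end ROrd

theorem rowOrd : SOrd := fun n => ⟨ROrd.dv (n + 1), fun e p hp h => by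
  have e1 : ip (n + 1) 1 * ip (n + 1) p = ip (n + 1) p := by rw [map_one, one_mul]
  change ROrd.vv _ = _
  rw [ROrd.vv_eq (M3B1.ip_ne hp) one_ne_zero e1, ROrd.v0_hom hp h,
    ROrd.v0_hom one_ne_zero (isHomogeneous_one _ _)]
  simp⟩

end

end Pool.Agent.MP_ee8c61_ag.TC
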