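import Pool.Agent.MP_ee8c61_ag.TC.Spec

/-! Properties of the order of vanishing at the origin. -/

namespace Pool.Agent.MP_ee8c61_ag.TC

open MvPolynomial M3 M3E

namespace ROrdK

variable {N : ℕ} {v : DV (KK N)} {e : ℕ} {p : Po N}

theorem hom (hv : Ord v) (hp : p.IsHomogeneous e) : ip N p ∈ v.F e := by
  by_cases h : p = 0
  · exact Or.inl (by rw [h, map_zero])
  · exact Or.inr (hv e p h hp).ge

/-- An additive property is checked on the homogeneous components. -/
theorem ind {A : Type} [AddCommGroup A] (S : AddSubgroup A) (φ : Po N →+ A)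
    (h0 : ∀ i < e, homogeneousComponent i p = 0)
    (h : ∀ k, e ≤ k → ∀ q : Po N, q.IsHomogeneous k → φ q ∈ S) : φ p ∈ S := by
  rw [← sum_homogeneousComponent p, map_sum]
  refine sum_mem fun k _ => ?_
  rcases lt_or_ge k e with hk | hk
  · rw [h0 k hk, map_zero]; exact zero_mem _
  · exact h k hk _ (homogeneousComponent_isHomogeneous _ _)

theorem tail (hv : Ord v) (h0 : ∀ i < e, homogeneousComponent i p = 0) : ip N p ∈ v.F e :=
  ind (v.F e) (ip N : Po N →+* KK N).toAddMonoidHom h0 fun _ hk _ hq =>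
    v.F_anti (Int.ofNat_le.2 hk) (hom hv hq)

theorem sub (h0 : ∀ i < e, homogeneousComponent i p = 0) :
    ∀ i < e + 1, homogeneousComponent i (p - homogeneousComponent e p) = 0 := fun i hi => by
  rw [map_sub, homogeneousComponent_of_mem (homogeneousComponent_mem e p)]
  split_ifs with h
  · rw [h, sub_self]
  · rw [h0 i (by omega), sub_zero]

theorem low (hv : Ord v) (h0 : ∀ i < e, homogeneousComponent i p = 0)
    (h1 : homogeneousComponent e p ≠ 0) : v.v (ip N p) = e := by
  refine (DV.eq_of_sub v (M3B1.ip_ne h1) (hv e _ h1 (homogeneousComponent_isHomogeneous _ _))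
    ?_).2
  rw [← map_sub]
  exact_mod_cast tail hv (sub h0)

theorem least (h : p ≠ 0) : ∃ e, (∀ i < e, homogeneousComponent i p = 0) ∧
    homogeneousComponent e p ≠ 0 := by
  classical
  have ex : ∃ e, homogeneousComponent e p ≠ 0 := by
    by_contra hn
    push Not at hn
    exact h (by rw [← sum_homogeneousComponent p]; exact Finset.sum_eq_zero fun i _ => hn i)
  exact ⟨Nat.find ex, fun i hi => not_not.1 (Nat.find_min ex hi), Nat.find_spec ex⟩

theorem mem (hv : Ord v) (h : ip N p ∈ v.F e) : ∀ i < e, homogeneousComponent i p = 0 := by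
  by_cases hp : p = 0
  · intro i _; rw [hp, map_zero]
  obtain ⟨k, h0, h1⟩ := least hp
  have := h.resolve_left (M3B1.ip_ne hp)
  rw [low hv h0 h1] at this
  exact fun i hi => h0 i (by omega)

theorem scale {ν : KK N} (hν : ν ≠ 0) (hp : p.IsHomogeneous e) :
    ip N p = ν ^ e * aeval (fun i => ip N (X i) / ν) p := by
  conv_lhs => rw [p.as_sum, map_sum]
  conv_rhs => rw [p.as_sum, map_sum, Finset.mul_sum]
  refine Finset.sum_congr rfl fun s hs => ?_
  rw [aeval_monomial, monomial_eq, map_mul, hp.degree_eq_sum_deg_support hs, Finsupp.prod,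
    Finsupp.prod, map_prod, ← Finset.prod_pow_eq_pow_sum, mul_left_comm,
    ← Finset.prod_mul_distrib]
  refine congrArg₂ (· * ·) ((ip N).commutes _) (Finset.prod_congr rfl fun i _ => ?_)
  rw [map_pow, ← mul_pow, mul_div_cancel₀ _ hν]

theorem inB {ν : KK N} {B : Subalgebra ℂ (KK N)} (hν : ν ≠ 0) (hB : ν ∈ B)
    (hx : ∀ i, ip N (X i) / ν ∈ B) (h0 : ∀ i < e, homogeneousComponent i p = 0) :
    (ν ^ e)⁻¹ * ip N p ∈ B := by
  refine ind B.toSubring.toAddSubgroup
    ((AddMonoidHom.mulLeft (ν ^ e)⁻¹).comp (ip N : Po N →+* KK N).toAddMonoidHom) h0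
    fun k hk q hq => ?_
  obtain ⟨c, rfl⟩ := Nat.exists_eq_add_of_le hk
  change (ν ^ e)⁻¹ * ip N q ∈ B
  rw [scale hν hq, pow_add, mul_assoc, inv_mul_cancel_left₀ (pow_ne_zero _ hν)]
  refine mul_mem (pow_mem hB _) ?_
  have : (aeval fun i => ip N (X i) / ν).range ≤ B := by
    rw [← Algebra.adjoin_range_eq_range_aeval, Algebra.adjoin_le_iff]
    exact Set.range_subset_iff.2 hx
  exact this ⟨q, rfl⟩

theorem dpoly (hv : Ord v) (l : Fin N) (h0 : ∀ i < e, homogeneousComponent i p = 0) :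
    M3B1.pd N l (ip N p) ∈ v.F (e - 1) := by
  rw [M3B1.pd_ip]
  exact ind (v.F (e - 1)) ((ip N : Po N →+* KK N).toAddMonoidHom.comp
    (pderiv l : Derivation ℂ (Po N) (Po N)).toLinearMap.toAddMonoidHom) h0 fun k hk _ hq =>
    v.F_anti (by omega) (hom hv (hq.pderiv (i := l)))

theorem der (hv : Ord v) (l : Fin N) (m : ℤ) (g : KK N) (hg : g ∈ v.F m) :
    M3B1.pd N l g ∈ v.F (m - 1) := by
  by_cases g0 : g = 0
  · exact Or.inl (by rw [g0, map_zero])
  obtain ⟨p, q, hq, h⟩ := M3B1.frac g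
  have q0 := M3B1.ip_ne hq
  have hp : p ≠ 0 := fun e => mul_ne_zero q0 g0 (by rw [h, e, map_zero])
  obtain ⟨a, a0, a1⟩ := least hp
  obtain ⟨b, b0, b1⟩ := least hq
  have e1 := v.mul _ _ q0 g0
  rw [h, low hv a0 a1, low hv b0 b1] at e1
  have e2 := hg.resolve_left g0
  have e3 : M3B1.pd N l g = (ip N q)⁻¹ * (M3B1.pd N l (ip N p) - g * M3B1.pd N l (ip N q)) := by
    rw [← h, Derivation.leibniz, smul_eq_mul, smul_eq_mul, add_sub_cancel_right,
      inv_mul_cancel_left₀ q0]
  have e4 : M3B1.pd N l (ip N p) - g * M3B1.pd N l (ip N q) ∈ v.F (m + (b - 1)) :=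
    sub_mem (v.F_anti (by omega) (dpoly hv l a0)) (v.F_mul hg (dpoly hv l b0))
  have e5 := v.F_mul (v.mem_F_self (ip N q)⁻¹) e4
  rw [v.inv, low hv b0 b1] at e5
  rw [e3]
  exact v.F_anti (by omega) e5

end ROrdK

open ROrdK in
theorem rowOrdK : SOrdK := fun _ _ hv =>
  { mem := fun _ _ => ⟨mem hv, tail hv⟩
    low := fun _ _ => low hv
    div := fun e p ν B hν hB hx h0 => ⟨_, inB hν hB hx (sub h0), by
      have := pow_ne_zero e hν
      rw [map_sub, scale hν (homogeneousComponent_isHomogeneous e p)]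
      field_simp
      ring⟩
    der := der hv }

end Pool.Agent.MP_ee8c61_ag.TC
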