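import Pool.Agent.MP_ee8c61_ag.TC.Spec

/-! An ample divisor whose round-up is the boundary. -/

namespace Pool.Agent.MP_ee8c61_ag.TC

open M3 M3E Filter Topology

theorem RAmp.small {J : Type} [Finite J] (x : J → ℚ) :
    ∃ δ : ℚ, 0 < δ ∧ ∀ j, -1 < δ * x j ∧ δ * x j < 1 := by
  have h : ∀ᶠ δ in 𝓝 (0 : ℚ), ∀ j, -1 < δ * x j ∧ δ * x j < 1 :=
    eventually_all.2 fun j => (continuousAt_const.eventually_lt (by fun_prop) (by simp)).and
      (ContinuousAt.eventually_lt (by fun_prop) continuousAt_const (by simp))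
  obtain ⟨δ, h1, h2⟩ := ((h.filter_mono nhdsWithin_le_nhds).and
    (self_mem_nhdsWithin (s := Set.Ioi 0))).exists
  exact ⟨δ, h2, h1⟩

theorem rowAmp : OfAmp := by
  intro E N f M o P hM hP h0 ho
  have A := E.aq N f M hM
  obtain ⟨w, hw⟩ := hM.amp
  have h1 := A.of_amp _ (E.a3 N f M hM _ _ (A.nsmul w _ (hM.pos o) hw)
    ((E.bas N f M hM).free_aa (-w o)))
  obtain ⟨ε, ε0, hε⟩ := RAmp.small (M.q (M.a o • w + -w o • M.aa))
  obtain ⟨δ, δ0, hδ⟩ := RAmp.small (ε • M.q (M.a o • w + -w o • M.aa) + M.q P)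
  refine ⟨_, A.smul _ δ δ0 (A.add _ _ (A.smul _ ε ε0 h1) (A.of_free P hP)), ?_, fun j => ?_,
    fun j => Int.ceil_le.2 (by exact_mod_cast (hδ j).2.le), fun j hj => ?_⟩
  · simp [ho, Mod.aa, mul_comm]
  · exact Int.lt_add_one_iff.1 (by
      have : (-1 : ℤ) < ⌈δ * (ε • M.q (M.a o • w + -w o • M.aa) + M.q P) j⌉ :=
        Int.lt_ceil.2 (by exact_mod_cast (hδ j).1)
      exact neg_lt_iff_pos_add.1 this)
  · refine Int.ceil_pos.2 (mul_pos δ0 ?_)
    have h2 : (1 : ℚ) ≤ M.q P j := by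
      rw [Mod.q_apply]
      exact_mod_cast hj
    have h3 := (hε j).1
    change 0 < ε * _ + _
    linarith

end Pool.Agent.MP_ee8c61_ag.TC
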