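import Pool.Agent.MP_ee8c61_ag.TC.Spec
import Pool.Agent.MP_ee8c61_ag.M3L.Loc

/-! The assembly. -/

namespace Pool.Agent.MP_ee8c61_ag.TC

open MvPolynomial M3 M3E Finset

theorem rowMain : OfMain := by
  intro E hK hMod hC hI hA n f d b hf hd hL hb
  have d0 : 0 < d := by
    obtain ⟨_, m, κ, -, -, h, -⟩ := hL
    exact Nat.pos_of_ne_zero fun e => by simp [e] at h
  have f0 : f ≠ 0 := fun e => hd (by rw [e, map_zero])
  obtain ⟨M, o, μ, hM, C⟩ := hMod n f f0 (hf 0 d0)
  have B := E.bas _ f M hM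
  have Nb := E.nb _ f M hM
  have K := hK n _ C.ord
  have va : ∀ j, (M.v j).v (ip _ f) = M.a j := fun j => by
    simpa [Mod.aa] using ((B.gen_v j _ _).1 (B.gen_f _)).2
  have ao : M.a o = d := by
    have := K.low d f hf hd
    rw [va] at this
    exact_mod_cast this
  set P : M.J → ℤ := M.aa - d • μ with hP
  have P1 : P o = 0 := by simp [hP, Mod.aa, C.one, ao]
  have P0 : 0 ≤ P := fun j => by
    obtain ⟨a, ha⟩ := hM.cov _ (B.ov_v j)
    have hx : ∀ i, ip _ (X i) / M.mon a μ ∈ M.S.A a := fun i => by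
      rw [div_eq_mul_inv, ← B.mon_neg]
      exact (Nb.H _ _).1 (C.sec i) a
    obtain ⟨r, r1, r2⟩ := K.div d f (M.mon a μ) (M.S.A a) (M.mon_ne a μ)
      (B.mon_mem a μ C.nonneg) hx hf
    have h2 : ip _ f / M.mon a μ ^ d ∈ M.S.A a := by
      rw [r2]
      refine add_mem ?_ (mul_mem (B.mon_mem a μ C.nonneg) r1)
      rw [aeval_def, eval₂_eq]
      exact sum_mem fun s _ => mul_mem (Subalgebra.algebraMap_mem _ _) (prod_mem fun i _ =>
        pow_mem (hx i) _)
    have f1 := M3L.f_ne hM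
    have h3 := (ha _ h2).resolve_left (div_ne_zero f1 (pow_ne_zero _ (M.mon_ne a μ)))
    rw [DV.div _ f1 (pow_ne_zero _ (M.mon_ne a μ)), DV.pow, va, B.v_mon a j μ ha] at h3
    simpa [hP, Mod.aa] using h3
  have fr : M.Free P := by
    classical
    have h1 : M.Free (-μ) := ⟨univ.image fun l => ip _ (X l), fun g hg => by
      obtain ⟨l, -, rfl⟩ := mem_image.1 hg
      exact C.sec l, fun V hV => by
      obtain ⟨l, hl⟩ := C.gen V hV
      exact ⟨_, mem_image_of_mem _ (mem_univ l), hl⟩⟩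
    have := B.free_add _ _ (B.free_aa 1) (B.free_nsmul _ d h1)
    rwa [one_smul, smul_neg, ← sub_eq_add_neg] at this
  obtain ⟨hk, h, m, κ, e, h0, hh, hm, he, hτ⟩ := hC n f d M o μ (red P) hM C hf hd hL
    (fun j => by unfold red; split_ifs <;> simp) (by simp [red, P1])
    fun j hj => by
      have : 0 < P j := by simpa [hP, Mod.aa] using hj
      simp [red, this]
  have sec : ∀ l, ip _ h / ip _ f ^ m * (ip _ (X l) * ip _ (X 0) ^ e) ∈
      M.R o (m • (M.kk + M.e o + red P)) := fun l V hV hle => by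
    have := B.oc_mul V _ _ _ _ (hτ V hV hle)
      (B.oc_mul V _ _ _ _ (C.sec l V hV) (B.oc_pow V _ _ e (C.sec 0 V hV)))
    rwa [show m • (M.kk + M.e o + red P) + (e + 1) • μ + (-μ + e • -μ) =
      m • (M.kk + M.e o + red P) by rw [succ_nsmul, smul_neg]; abel] at this
  have x0 : ∀ l : Fin (n + 1), ip _ (X l) ≠ 0 := fun l => M3B1.ip_ne (X_ne_zero l)
  have h1 := M3B1.ip_ne h0
  have f1 := pow_ne_zero m (M3B1.ip_ne f0)
  have vx := C.ord 1 (X 0) (X_ne_zero _) (isHomogeneous_X _ _)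
  have := hA n f ((n + 1 : ℚ) / d) b M o P m _ _ f0 hb hM (by
      have : (d : ℚ) ≠ 0 := Nat.cast_ne_zero.2 d0.ne'
      simp [Mod.ex, hk, ao, this]) fr P0 P1 hm (sec 0)
    (mul_ne_zero (div_ne_zero h1 f1) (mul_ne_zero (x0 0) (pow_ne_zero _ (x0 0)))) (by
      rw [DV.mul _ _ _ (div_ne_zero h1 f1) (mul_ne_zero (x0 0) (pow_ne_zero _ (x0 0))),
        DV.div _ h1 f1, DV.mul _ _ _ (x0 0) (pow_ne_zero _ (x0 0)), DV.pow, DV.pow, va, vx,
        C.ord κ h h0 hh, ao, hk]
      have : (κ : ℤ) + (e + 1) + (n + 1) * m = m * d := by exact_mod_cast he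
      push_cast
      linarith)
    (fun i => sec i.succ) (by
      refine Eq.subst (motive := Indep (M.v o)) (funext fun i => ?_) (hI n _ C.ord)
      have := x0 0
      field_simp)
  simpa using this

end Pool.Agent.MP_ee8c61_ag.TC
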