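import Pool.Agent.MP_ee8c61_ag.TC.RAbs2
import Pool.Agent.MP_ee8c61_ag.TC.RAmp
import Pool.Agent.MP_ee8c61_ag.TC.RCht
import Pool.Agent.MP_ee8c61_ag.TC.RDet
import Pool.Agent.MP_ee8c61_ag.TC.RInd
import Pool.Agent.MP_ee8c61_ag.TC.RKle
import Pool.Agent.MP_ee8c61_ag.TC.RLift
import Pool.Agent.MP_ee8c61_ag.TC.RMain
import Pool.Agent.MP_ee8c61_ag.TC.RMod
import Pool.Agent.MP_ee8c61_ag.TC.RNk
import Pool.Agent.MP_ee8c61_ag.TC.ROrd
import Pool.Agent.MP_ee8c61_ag.TC.ROrdK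
import Pool.Agent.MP_ee8c61_ag.TC.RPert
import Pool.Agent.MP_ee8c61_ag.TC.RQuo
import Pool.Agent.MP_ee8c61_ag.TC.RSs
import Pool.Agent.MP_ee8c61_ag.M3E.Final
import Pool.Agent.MP_ee8c61_ag.M3L.R1

/-! The tangent cone gives a root. -/

namespace Pool.Agent.MP_ee8c61_ag.TC

open M3E (eout sb1raw)

theorem sabs : SAbs :=
  rowAbs2 eout (M3L.sr1 eout) (rowLift eout) (rowNk eout rowSs) (rowAmp eout) rowPert

theorem main : Main :=
  rowMain eout rowOrdK (rowMod eout sb1raw rowOrd rowOrdK)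
    (rowCht eout rowOrdK (rowKle eout rowOrdK) rowDet rowQuo) rowInd sabs

end Pool.Agent.MP_ee8c61_ag.TC
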