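import Pool.Agent.MP_ee8c61_ag.TC.Spec

/-! A divisor on which the log canonical divisor is big gives a root. -/

namespace Pool.Agent.MP_ee8c61_ag.TC

open M3 M3E

namespace RAbs

/-- Quotients of nearby elements have the same residue. -/
theorem quot {K : Type} [Field K] (d : DV K) {c : ℤ} {s₀ g₀ s g : K} (h0 : s₀ ≠ 0) (h1 : g₀ ≠ 0)
    (hs : d.v s₀ = -c) (hg : d.v g₀ = -c) (h2 : s₀ - g₀ ∈ d.F (1 - c)) (h3 : s - g ∈ d.F (1 - c))
    (h4 : s ∈ d.F (-c)) : g / g₀ - s / s₀ ∈ d.F 1 := by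
  have a1 : g₀⁻¹ ∈ d.F c := Or.inr (by rw [d.inv, hg]; omega)
  have a2 : s₀⁻¹ ∈ d.F c := Or.inr (by rw [d.inv, hs]; omega)
  have b1 := d.F_mul (neg_mem h3) a1
  have b2 := d.F_mul (d.F_mul h4 a2) (d.F_mul h2 a1)
  rw [show 1 - c + c = 1 by ring] at b1
  rw [show -c + c + (1 - c + c) = 1 by ring] at b2
  have e : g / g₀ - s / s₀ = -(s - g) * g₀⁻¹ + s * s₀⁻¹ * ((s₀ - g₀) * g₀⁻¹) := by
    field_simp
    ring
  rw [e]
  exact add_mem b1 b2

end RAbs

theorem rowAbs : OfAbs := by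
  intro E hR hL hN hA hP n f la b M o P m s₀ s hf hb hM hex hF hP0 hPo hm hs₀ hne hv hs hI
  have B := E.bas _ f M hM
  obtain ⟨A, hA1, hA2, hA3, hA4, hA5⟩ := hA _ f M o P hM hF hP0 hPo
  obtain ⟨w, hw⟩ := hM.amp
  have hup : M.up A o = 0 := by simp [Mod.up, hA2]
  have heo : M.e o o = 1 := by simp [Mod.e]
  have hco : (m • (M.kk + M.e o + M.up A)) o = m * (M.k o + 1) := by
    simp only [Pi.smul_apply, Pi.add_apply, hup, heo, Mod.kk, nsmul_eq_mul, add_zero]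
  have hred : ∀ j, red P j ≤ M.up A j := fun j => by
    unfold red
    split_ifs with h
    · exact hA5 j h
    · exact hA3 j
  have mono : ∀ σ ∈ M.R o (m • (M.kk + M.e o + red P)),
      σ ∈ M.R o (m • (M.kk + M.e o + M.up A)) := fun σ hσ V hV hVo =>
    B.oc_mono V _ _ σ (fun j _ => by
      simp only [Pi.smul_apply, Pi.add_apply, nsmul_eq_mul]
      exact mul_le_mul_of_nonneg_left (by linarith [hred j]) (Nat.cast_nonneg m)) (hσ V hV hVo)
  obtain ⟨g₀, hg₀, hd₀⟩ := hL _ f M hM o A m hA1 hA2 hm s₀ (mono s₀ hs₀)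
  choose g hg hd using fun i => hL _ f M hM o A m hA1 hA2 hm (s i) (mono _ (hs i))
  have hv' : (M.v o).v s₀ = -(m • (M.kk + M.e o + M.up A)) o := by rw [hco, hv]
  obtain ⟨hg0, hgv⟩ := (M.v o).eq_of_sub (h := g₀) hne hv' (by
    have := neg_mem hd₀
    rwa [neg_sub, sub_eq_neg_add (1 : ℤ)] at this)
  have hI' : Indep (M.v o) fun i => g i / g₀ :=
    hP _ n (M.v o) _ _ (fun i => RAbs.quot (M.v o) hne hg0 hv' hgv hd₀ (hd i)
      (B.R_F o _ _ (mono _ (hs i)))) hI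
  obtain ⟨r, t, hr, ht, htn⟩ := hN n f M o _ (-w) g₀ g hM hg₀ hg0 hgv hg hI'
  have hrm : 0 < r * m := Nat.mul_pos hr hm
  have hq : ((r * m : ℕ) : ℚ) ≠ 0 := Nat.cast_ne_zero.2 hrm.ne'
  refine hR _ f la b M o (M.q w) (-1 / ((r * m : ℕ) : ℚ)) (r * m)
    (fun j => (r * m : ℕ) * ((M.k j : ℤ) + 1) - w j) hf hb hM hex
    ⟨1, w, one_pos, hw, (one_smul _ _).symm⟩
    (div_neg_of_neg_of_pos (by norm_num) (Nat.cast_pos.2 hrm)) hrm (funext fun j => ?_) t
    (fun V hV => B.oc_mono V _ _ t (fun j _ => ?_) (ht V hV)) ?_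
  · simp only [Mod.q, Mod.nu, Pi.smul_apply, Pi.add_apply, nsmul_eq_mul, smul_eq_mul]
    rw [mul_add ((r * m : ℕ) : ℚ) _ (_ * _), ← mul_assoc, mul_div_cancel₀ _ hq]
    push_cast
    ring
  · have h1 : M.e o j + M.up A j ≤ 1 := by
      by_cases hj : j = o
      · rw [hj, hup, heo, add_zero]
      · have : M.e o j = 0 := by simp [Mod.e, hj]
        rw [this, zero_add]
        exact hA4 j
    show r • m • ((M.k j : ℤ) + M.e o j + M.up A j) + -w j ≤ _
    simp only [nsmul_eq_mul]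
    push_cast
    have h2 : (0 : ℤ) ≤ (r : ℤ) * m := by positivity
    nlinarith [mul_le_mul_of_nonneg_left h1 h2]
  · have e : (r • m • (M.kk + M.e o + M.up A) + -w) o =
        (r * m : ℕ) * ((M.k o : ℤ) + 1) - w o := by
      rw [Pi.add_apply, Pi.smul_apply, hco, Pi.neg_apply, nsmul_eq_mul]
      push_cast
      ring
    rwa [e] at htn

end Pool.Agent.MP_ee8c61_ag.TC
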