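import Pool.Agent.MP_ee8c61_ag.TC.Spec

/-! A divisor on which the log canonical divisor is big gives a root. -/

namespace Pool.Agent.MP_ee8c61_ag.TC

open M3 M3E

theorem rowAbs2 : OfAbs := by
  intro E hR hL hN hA hP n f la b M o P m s₀ s f0 hb hM hex fr P0 P1 hm h0 n0 v0 hs hI
  have B := E.bas _ f M hM
  obtain ⟨A, a1, a2, a3, a4, a5⟩ := hA _ f M o P hM fr P0 P1
  set c : M.J → ℤ := m • (M.kk + M.e o + M.up A) with hc
  have uo : M.up A o = 0 := by simp [Mod.up, a2]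
  have co : c o = m * (M.k o + 1) := by simp [hc, uo, Mod.kk, Mod.e_apply, mul_add]
  have up : ∀ x ∈ M.R o (m • (M.kk + M.e o + red P)), x ∈ M.R o c := fun x hx V h1 h2 =>
    B.oc_mono V _ _ x (fun j _ => nsmul_le_nsmul_right (add_le_add_right (show red P ≤ M.up A from
      fun j => by
        unfold red
        split_ifs with h
        exacts [a5 j h, a3 j]) _) m j) (hx V h1 h2)
  obtain ⟨g₀, g1, g2⟩ := hL _ f M hM o A m a1 a2 hm s₀ (up _ h0)
  choose g g3 g4 using fun i => hL _ f M hM o A m a1 a2 hm (s i) (up _ (hs i))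
  rw [← hc] at g1 g2 g3 g4
  rw [← co] at v0
  have d0 : g₀ - s₀ ∈ (M.v o).F (-c o + 1) := by
    rw [← neg_sub, neg_add_eq_sub]
    exact neg_mem g2
  obtain ⟨g5, g6⟩ := (M.v o).eq_of_sub n0 v0 d0
  have i0 : g₀⁻¹ ∈ (M.v o).F (c o) := Or.inr (by rw [DV.inv, g6, neg_neg])
  have i1 : s₀⁻¹ ∈ (M.v o).F (c o) := Or.inr (by rw [DV.inv, v0, neg_neg])
  obtain ⟨w, hw⟩ := hM.amp
  obtain ⟨r, t, r0, t1, t2⟩ := hN n f M o c (-w) g₀ g hM g1 g5 g6 g3 (hP _ n _ _ _ (fun i => by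
    have e1 := (M.v o).F_mul (neg_mem (g4 i)) i0
    have e2 := (M.v o).F_mul ((M.v o).F_mul ((M.v o).F_mul (B.R_F o c _ (up _ (hs i))) g2) i0) i1
    rw [show 1 - c o + c o = 1 by ring] at e1
    rw [show -c o + (1 - c o) + c o + c o = 1 by ring] at e2
    refine Eq.subst (motive := (· ∈ (M.v o).F 1)) ?_ (add_mem e1 e2)
    field_simp
    ring) hI)
  have rm : (0 : ℚ) < (r * m : ℕ) := by exact_mod_cast Nat.mul_pos r0 hm
  refine hR _ f la b M o (M.q w) (-(1 / (r * m : ℕ))) (r * m) ((r * m) • (M.kk + 1) - w) f0 hb hM hex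
    ((E.aq _ f M hM).of_amp w hw) (neg_lt_zero.2 (one_div_pos.2 rm)) (Nat.mul_pos r0 hm) (funext fun j => ?_) t
    (fun V hV => B.oc_mono V _ _ t (fun j _ => ?_) (t1 V hV)) ?_
  · simp only [Mod.q_apply, Mod.nu, Mod.kk, Pi.sub_apply, Pi.add_apply, Pi.smul_apply,
      Pi.one_apply, smul_eq_mul, nsmul_eq_mul, Pi.mul_apply, Pi.natCast_apply]
    have := rm.ne'
    push_cast at this ⊢
    field_simp
    ring
  · rw [hc, smul_smul, sub_eq_add_neg]
    refine (add_le_add_left (nsmul_le_nsmul_right (show M.kk + M.e o + M.up A ≤ M.kk + 1 from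
      fun j => ?_) _) _ : _ ≤ (r * m) • (M.kk + 1) + -w) j
    have := a4 j
    by_cases h : j = o
    · simp [h, uo, Mod.e_apply]
    · simpa [h, Mod.e_apply] using this
  · refine fun h => t2 (Eq.subst (motive := fun x => t ∈ (M.v o).F (1 - x)) ?_ h)
    simp [co, Mod.kk]
    ring

end Pool.Agent.MP_ee8c61_ag.TC
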