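import Mathlib
import Pool.Agent.MP_ee8c61_ag.TC.Final

/-! The tangent cone of a polynomial gives a root of its Bernstein-Sato polynomial. -/

namespace Pool.Agent.MP_ee8c61_ag.TC

open MvPolynomial

/-- `f` has multiplicity `d` at the origin of `ℂ^(n+1)`, and its lowest form defines a projective
hypersurface whose complement is of log general type. -/
theorem result {n : ℕ} (f : MvPolynomial (Fin (n + 1)) ℂ) (d : ℕ)
    (h0 : ∀ i < d, homogeneousComponent i f = 0) (h1 : homogeneousComponent d f ≠ 0)
    (hL : LogGeneral (homogeneousComponent d f) d) (b : Polynomial ℂ) (hb : H10.IsBS ![f] b) :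
    b.eval (-((n + 1 : ℂ) / d)) = 0 :=
  main n f d b h0 h1 hL hb

end Pool.Agent.MP_ee8c61_ag.TC
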