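import Pool.Agent.MP_ee8c61_ag.TC.Stmt
import Pool.Agent.MP_ee8c61_ag.M3E.Asm
import Pool.Agent.MP_ee8c61_ag.M3B1.Basic
import Pool.Agent.MP_ee8c61_ag.M3.Defs

/-! The tangent cone gives a root: the statements. -/

namespace Pool.Agent.MP_ee8c61_ag.TC

open MvPolynomial M3 M3E

noncomputable section

variable {N : ℕ}

/-- `v` is the order of vanishing at the origin. -/
def Ord (v : DV (KK N)) : Prop :=
  ∀ (e : ℕ) (p : Po N), p ≠ 0 → p.IsHomogeneous e → v.v (ip N p) = e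

/-- The residues of the functions `y` are algebraically independent. -/
def Indep {K : Type} [Field K] [Algebra ℂ K] {n : ℕ} (v : DV K) (y : Fin n → K) : Prop :=
  ∀ P : Po n, P ≠ 0 → aeval y P ≠ 0 ∧ v.v (aeval y P) = 0

/-- The reduced divisor with the support of `P`. -/
def red {J : Type} (P : J → ℤ) : J → ℤ := fun j => if 0 < P j then 1 else 0

/-- Consequences. -/
structure OrdK (v : DV (KK N)) : Prop where
  mem : ∀ (e : ℕ) (p : Po N), ip N p ∈ v.F e ↔ ∀ i < e, homogeneousComponent i p = 0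
  low : ∀ (e : ℕ) (p : Po N), (∀ i < e, homogeneousComponent i p = 0) →
    homogeneousComponent e p ≠ 0 → v.v (ip N p) = e
  div : ∀ (e : ℕ) (p : Po N) (ν : KK N) (B : Subalgebra ℂ (KK N)), ν ≠ 0 → ν ∈ B →
    (∀ i, ip N (X i) / ν ∈ B) → (∀ i < e, homogeneousComponent i p = 0) →
    ∃ r ∈ B, ip N p / ν ^ e =
      aeval (fun i => ip N (X i) / ν) (homogeneousComponent e p) + ν * r
  der : ∀ (l : Fin N) (m : ℤ), ∀ g ∈ v.F m, M3B1.pd N l g ∈ v.F (m - 1)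

def SOrd : Prop := ∀ n : ℕ, ∃ v : DV (KK (n + 1)), Ord v

def SOrdK : Prop := ∀ (n : ℕ) (v : DV (KK (n + 1))), Ord v → OrdK v

/-- The model dominates the blow-up of the origin, whose exceptional divisor is `o`; `μ` is the
divisor of the maximal ideal. -/
structure Cone (M : M3.Mod N) (o : M.J) (μ : M.J → ℤ) : Prop where
  ord : Ord (M.v o)
  sec : ∀ l, ip N (X l) ∈ M.H (-μ)
  gen : ∀ V, Ov V → ∃ l, M.Gen V (-μ) (ip N (X l))
  nonneg : 0 ≤ μ
  one : μ o = 1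

def SMod : Prop := ∀ (n : ℕ) (f : Po (n + 1)), f ≠ 0 → homogeneousComponent 0 f = 0 →
  ∃ (M : M3.Mod (n + 1)) (o : M.J) (μ : M.J → ℤ), M.OK f ∧ Cone M o μ

def OfMod : Prop := EOut → SB1raw → SOrd → SOrdK → SMod

/-- The discrepancy is at most `n`. -/
def SKle : Prop := ∀ (n : ℕ) (f : Po (n + 1)) (M : M3.Mod (n + 1)) (o : M.J), M.OK f →
  Ord (M.v o) → M.k o ≤ n

def OfKle : Prop := EOut → SOrdK → SKle

/-- The Jacobian determinant of a cone over a map. -/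
def SDet : Prop := ∀ (n : ℕ) (A : Type) [CommRing A] [Algebra ℂ A]
  (D : Fin (n + 1) → Derivation ℂ A A) (l0 : Fin (n + 1)) (η ν : A) (ψ : Fin (n + 1) → A),
  (∀ i, D i η = if i = l0 then 1 else 0) →
  ∃ (ε : ℤˣ) (r : A), (Matrix.of fun l i => D i (η * ν * ψ l)).det =
    η ^ n * (((ε : ℤ) : A) * ν ^ (n + 1) * jac (fun i => D (l0.succAbove i)) ψ + η * r)

/-- The hypothesis on a coordinate hyperplane of a chart. -/
def SQuo : Prop := ∀ (n : ℕ) (g h : Po (n + 1)) (m : ℕ),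
  (∀ (B : Type) [CommRing B] [IsDomain B] [Algebra ℂ B] (z : Fin n → B)
      (D : Fin n → Derivation ℂ B B) (ψ : Fin (n + 1) → B) (u : Bˣ) (a : Fin n → ℕ),
      (aeval (R := ℂ) z).toRingHom.Etale → (∀ i j, D i (z j) = if i = j then 1 else 0) →
      (∃ l, IsUnit (ψ l)) → aeval ψ g = u * ∏ i, z i ^ a i →
      aeval ψ g ^ m ∣ aeval ψ h * (jac D ψ * ∏ i with a i ≠ 0, z i) ^ m) →
  ∀ (A : Type) [CommRing A] [Algebra ℂ A] (z : Fin (n + 1) → A)
    (D : Fin (n + 1) → Derivation ℂ A A) (l0 : Fin (n + 1)) (ψ : Fin (n + 1) → A) (u : Aˣ)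
    (a : Fin n → ℕ), (aeval (R := ℂ) z).toRingHom.Etale →
    (∀ i j, D i (z j) = if i = j then 1 else 0) → (Ideal.span {z l0}).IsPrime →
    (∃ l, IsUnit (ψ l)) → z l0 ∣ aeval ψ g - u * ∏ i, z (l0.succAbove i) ^ a i →
    ∃ y : A, z l0 ∣ aeval ψ h * (jac (fun i => D (l0.succAbove i)) ψ *
      ∏ i with a i ≠ 0, z (l0.succAbove i)) ^ m - (u * ∏ i, z (l0.succAbove i) ^ a i) ^ m * y

/-- The pluricanonical form is a section on the exceptional divisor. -/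
def SCht : Prop := ∀ (n : ℕ) (f : Po (n + 1)) (d : ℕ) (M : M3.Mod (n + 1)) (o : M.J)
  (μ dd : M.J → ℤ), M.OK f → Cone M o μ → (∀ i < d, homogeneousComponent i f = 0) →
  homogeneousComponent d f ≠ 0 → LogGeneral (homogeneousComponent d f) d → 0 ≤ dd → dd o = 0 →
  (∀ j, d * μ j < M.a j → 1 ≤ dd j) →
  M.k o = n ∧ ∃ (h : Po (n + 1)) (m κ e : ℕ), h ≠ 0 ∧ h.IsHomogeneous κ ∧ 0 < m ∧
    κ + (e + 1) + (n + 1) * m = m * d ∧
    ip _ h / ip _ f ^ m ∈ M.R o (m • (M.kk + M.e o + dd) + (e + 1) • μ)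

def OfCht : Prop := EOut → SOrdK → SKle → SDet → SQuo → SCht

/-- Pluricanonical sections lift. -/
def SLift : Prop := AllM fun _ M => ∀ (o : M.J) (A : M.J → ℚ) (m : ℕ), M.AmpQ A → A o = 0 →
  0 < m → ∀ σ ∈ M.R o (m • (M.kk + M.e o + M.up A)), M.Lf o (m • (M.kk + M.e o + M.up A)) σ

def OfLift : Prop := EOut → SLift

/-- A valuation whose residue field has the largest possible transcendence degree is a
localisation of a normalisation. -/
def SSs : Prop := ∀ (n : ℕ) (v : DV (KK (n + 1))) (π : KK (n + 1)) (y : Fin n → KK (n + 1)),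
  π ≠ 0 → 0 < v.v π → Indep v y → ∀ z ∈ v.F 0, ∃ s, s ≠ 0 ∧ v.v s = 0 ∧ ∀ V : Vl (n + 1),
    (∀ c : ℂ, algebraMap ℂ _ c ∈ V) → π ∈ V → (∀ i, y i ∈ V) → s ∈ V ∧ s * z ∈ V

/-- The lemma of Kodaira. -/
def SNk : Prop := ∀ (n : ℕ) (f : Po (n + 1)) (M : M3.Mod (n + 1)) (o : M.J) (c u : M.J → ℤ)
  (g₀ : KK (n + 1)) (g : Fin n → KK (n + 1)), M.OK f → g₀ ∈ M.H c → g₀ ≠ 0 →
  (M.v o).v g₀ = -c o → (∀ i, g i ∈ M.H c) →
  Indep (M.v o) (fun i => g i / g₀) →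
  ∃ (r : ℕ) (t : KK (n + 1)), 0 < r ∧ t ∈ M.H (r • c + u) ∧ t ∉ (M.v o).F (1 - (r • c + u) o)

def OfNk : Prop := EOut → SSs → SNk

/-- An ample divisor whose round-up is the boundary. -/
def SAmp : Prop := ∀ (N : ℕ) (f : Po N) (M : M3.Mod N) (o : M.J) (P : M.J → ℤ), M.OK f → M.Free P →
  0 ≤ P → P o = 0 → ∃ A, M.AmpQ A ∧ A o = 0 ∧ 0 ≤ M.up A ∧ M.up A ≤ 1 ∧
    ∀ j, 0 < P j → 1 ≤ M.up A j

def OfAmp : Prop := EOut → SAmp

/-- Independence depends only on the residues. -/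
def SPert : Prop := ∀ (K : Type) [Field K] [Algebra ℂ K] (n : ℕ) (v : DV K) (y y' : Fin n → K),
  (∀ i, y i - y' i ∈ v.F 1) → Indep v y' → Indep v y

/-- The residues of the affine coordinates are independent. -/
def SInd : Prop := ∀ (n : ℕ) (v : DV (KK (n + 1))), Ord v →
  Indep v fun i : Fin n => ip _ (X i.succ) / ip _ (X 0)

/-- A divisor on which the log canonical divisor is big gives a root. -/
def SAbs : Prop := ∀ (n : ℕ) (f : Po (n + 1)) (la : ℚ) (b : Polynomial ℂ) (M : M3.Mod (n + 1))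
  (o : M.J) (P : M.J → ℤ) (m : ℕ) (s₀ : KK (n + 1)) (s : Fin n → KK (n + 1)), f ≠ 0 →
  H10.IsBS ![f] b → M.OK f → M.ex la o = 0 → M.Free P → 0 ≤ P → P o = 0 → 0 < m →
  s₀ ∈ M.R o (m • (M.kk + M.e o + red P)) → s₀ ≠ 0 → (M.v o).v s₀ = -(m * (M.k o + 1)) →
  (∀ i, s i ∈ M.R o (m • (M.kk + M.e o + red P))) → Indep (M.v o) (fun i => s i / s₀) →
  b.eval (-(la : ℂ)) = 0

def OfAbs : Prop := EOut → SR1 → SLift → SNk → SAmp → SPert → SAbs

/-- The theorem. -/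
def Main : Prop := ∀ (n : ℕ) (f : Po (n + 1)) (d : ℕ) (b : Polynomial ℂ),
  (∀ i < d, homogeneousComponent i f = 0) → homogeneousComponent d f ≠ 0 →
  LogGeneral (homogeneousComponent d f) d → H10.IsBS ![f] b →
  b.eval (-((n + 1 : ℂ) / d)) = 0

def OfMain : Prop := EOut → SOrdK → SMod → SCht → SInd → SAbs → Main

end

end Pool.Agent.MP_ee8c61_ag.TC
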