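import Mathlib

/-!
Projective hypersurfaces whose complement is of log general type.
-/

namespace Pool.Agent.MP_ee8c61_ag.TC

open MvPolynomial

/-- The determinant with rows `ψ`, `D 1 ψ`, ..., `D n ψ`: the pull-back along `ψ` of the form
`Ω = ∑ ± x_i dx_0 ... dx_n` (omit `dx_i`) is `jac D ψ` times `dz_1 ... dz_n`. -/
noncomputable def jac {n : ℕ} {B : Type} [CommRing B] [Algebra ℂ B]
    (D : Fin n → Derivation ℂ B B) (ψ : Fin (n + 1) → B) : B :=
  (Matrix.of (Fin.cons ψ fun i l => D i (ψ l) : Fin (n + 1) → Fin (n + 1) → B)).det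

/-- The complement of the hypersurface `g = 0` of degree `d` in projective `n`-space is of log
general type: for some `m` and some nonzero form `h` of degree smaller than `m (d - n - 1)`, the
twisted pluricanonical form `h Ω ^ m / g ^ m` has at most logarithmic poles after pull-back by any
map `ψ` from a variety with etale coordinates `z` in which `g` becomes a monomial. -/
def LogGeneral {n : ℕ} (g : MvPolynomial (Fin (n + 1)) ℂ) (d : ℕ) : Prop :=
  ∃ (h : MvPolynomial (Fin (n + 1)) ℂ) (m κ : ℕ), h ≠ 0 ∧ h.IsHomogeneous κ ∧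
    κ + (n + 1) * m < m * d ∧
    ∀ (B : Type) [CommRing B] [IsDomain B] [Algebra ℂ B] (z : Fin n → B)
      (D : Fin n → Derivation ℂ B B) (ψ : Fin (n + 1) → B) (u : Bˣ) (a : Fin n → ℕ),
      (aeval (R := ℂ) z).toRingHom.Etale → (∀ i j, D i (z j) = if i = j then 1 else 0) →
      (∃ l, IsUnit (ψ l)) → aeval ψ g = u * ∏ i, z i ^ a i →
      aeval ψ g ^ m ∣ aeval ψ h * (jac D ψ * ∏ i with a i ≠ 0, z i) ^ m

end Pool.Agent.MP_ee8c61_ag.TC
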